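import Pool.Agent.K6.H59.GP.Main
import Pool.Agent.TH409.SH.Fin2

set_option autoImplicit false

/-!
# Generalised polynomials with values on hyperbolic varieties

A generalised (bracket) polynomial is a function on `ℤ ^ k` obtained from constants and the
coordinates by sums, products and integral parts, which may be nested, such as
`⌊α n ⌊β m ⌋ + γ⌋ n - ⌊δ m ^ 2⌋`. We describe it by the arguments of its integral parts: let
`G_0, …, G_{s-1}` be real polynomials in `k + s` variables, and, for `n ∈ ℤ ^ k`,

  `a_l(n) = G_l(n, v_0(n), …, v_{l-1}(n), 0, …, 0)`,  `v_l(n) = ⌊a_l(n)⌋`   (`Brackets`).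

Let `X` be a closed subset of projective `N`-space over a field `K` of characteristic zero, given by
forms of degree at most `e`, and let `x(n) = P(n, v(n))`, with polynomials `P_0, …, P_N` in `k + s`
variables over `K`, be in the cone over `X` for all `n ∈ ℤ ^ k`. So the nonzero vectors `x(n)`
represent points of `X(K)`. Such sequences are not given by recurrences (for instance
`⌊α n⌋` is not for irrational `α`), so that the results of the starting files on orbits, iterated
recurrences, holonomic and regular sequences do not apply to them.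

Let `ρ > 0`, and call `n` regular if none of the numbers `a_l(n)` has distance less than `ρ` from the
nearest integer, i.e. if `n` is not near the discontinuities of the integral parts.

(1) If `X` is Brody (equivalently Kobayashi) hyperbolic for some embedding of `K` in `ℂ`, then there
    is no nonconstant polynomial curve on `X` over `K`.

(2) There is a number `B` which depends only on `k`, `s`, `ρ`, `e` and on the degree `d` of the `G_l`
    and `P_i` (neither on `K`, `N`, `X` nor on the coefficients, real or in `K`) such that

    * at most `B` points of `X(K)` which are not on nonconstant polynomial curves over `K` on `X` are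
      represented by the `x(n)` with regular `n`; so by (1), if `X` is hyperbolic, then the `x(n)`
      with regular `n` represent at most `B` points;
    * each of these points is represented by `x(n)` for a set of `n` of lower density at least
      `1 / B`: if `n` is regular and `x(n)` represents such a point, then for all `T` it is
      represented by at least `(2 T + 1) ^ k / B` of the `x(n + u)`, `|u_i| ≤ T`.

For nested integral parts the restriction to regular `n` cannot be omitted without proving Lang's
conjecture: the indicator functions of sufficiently sparse sets are generalised polynomials, and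
already that of an algebraic subset `{w = 0}` of `ℤ ^ k` is, as it is
`1 + ⌊√2 w⌋ + ⌊- √2 w⌋`.

Method: van der Waerden's theorem, applied to the colouring of the parameters `u` by the positions
modulo one of the homogeneous components of the arguments `a_l(n + i u t)`, as polynomials in `i`,
gives for every direction `t` a bounded multiple `j t` such that all `v_l(n + i j t)` are
polynomials in `i` for all small integers `i`. Hence there is a polynomial curve on `X` through
`x(n)` and `x(n + j t)`.
-/

namespace Pool.Agent.Results.MP_627a61_nt.GeneralisedPolynomials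

open Polynomial
open Pool.Agent.H458.Sp (BrodyHyperbolic)

/-- the arguments of the nested integral parts at `n` -/
noncomputable def argument {k s : ℕ} (G : Fin s → MvPolynomial (Fin k ⊕ Fin s) ℝ)
    (v : Fin s → (Fin k → ℤ) → ℤ) (l : Fin s) (n : Fin k → ℤ) : ℝ :=
  MvPolynomial.eval (Sum.elim (fun i => (n i : ℝ)) (fun l' => if l' < l then (v l' n : ℝ) else 0))
    (G l)

/-- the `v_l` are the nested integral parts given by the `G_l` -/
def Brackets {k s : ℕ} (G : Fin s → MvPolynomial (Fin k ⊕ Fin s) ℝ)
    (v : Fin s → (Fin k → ℤ) → ℤ) : Prop := ∀ l n, v l n = ⌊argument G v l n⌋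

/-- `n` is regular: the arguments at `n` have distance at least `ρ` from the integers -/
def Regular {k s : ℕ} (ρ : ℝ) (G : Fin s → MvPolynomial (Fin k ⊕ Fin s) ℝ)
    (v : Fin s → (Fin k → ℤ) → ℤ) (n : Fin k → ℤ) : Prop :=
  ∀ l, ∀ m : ℤ, ρ ≤ |argument G v l n - m|

/-- the vector `x(n)` -/
noncomputable def vector {k s N : ℕ} {K : Type} [Field K] (v : Fin s → (Fin k → ℤ) → ℤ)
    (P : Fin (N + 1) → MvPolynomial (Fin k ⊕ Fin s) K) (n : Fin k → ℤ) : Fin (N + 1) → K :=
  fun i => MvPolynomial.eval (Sum.elim (fun j => (n j : K)) (fun l => (v l n : K))) (P i)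

/-- The point represented by `z` is on a nonconstant polynomial curve `q` over `K` on the projective
variety with the equations `FF`. -/
def OnCurve {K : Type} [Field K] {N : ℕ} (FF : Set (MvPolynomial (Fin (N + 1)) K))
    (z : Fin (N + 1) → K) : Prop :=
  ∃ q : Fin (N + 1) → K[X], (∀ F ∈ FF, MvPolynomial.aeval q F = 0) ∧
    (∀ i, (q i).eval 0 = z i) ∧
    ∃ (a b : K) (i j : Fin (N + 1)), (q i).eval a * (q j).eval b ≠ (q j).eval a * (q i).eval b

/-- Generalised polynomials with values on a variety: few points at regular places, each of them with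
positive density. -/
theorem result :
    (∀ (K : Type) [Field K] (σ : K →+* ℂ) (N : ℕ) (FF : Set (MvPolynomial (Fin (N + 1)) K)),
      (∀ F ∈ FF, ∃ m, F.IsHomogeneous m) → BrodyHyperbolic ((MvPolynomial.map σ) '' FF) →
      ∀ z, ¬ OnCurve FF z) ∧
    ∀ (k s d e : ℕ) (ρ : ℝ), 0 < ρ → ∃ B : ℕ,
      ∀ (K : Type) [Field K] [CharZero K] (N : ℕ) (FF : Set (MvPolynomial (Fin (N + 1)) K)),
      (∀ F ∈ FF, F.totalDegree ≤ e) →
      ∀ (G : Fin s → MvPolynomial (Fin k ⊕ Fin s) ℝ), (∀ l, (G l).totalDegree ≤ d) →
      ∀ (v : Fin s → (Fin k → ℤ) → ℤ), Brackets G v →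
      ∀ (P : Fin (N + 1) → MvPolynomial (Fin k ⊕ Fin s) K), (∀ i, (P i).totalDegree ≤ d) →
      (∀ n, ∀ F ∈ FF, MvPolynomial.eval (vector v P n) F = 0) →
        {Q : Projectivization K (Fin (N + 1) → K) | ∃ (n : Fin k → ℤ) (h : vector v P n ≠ 0),
          Regular ρ G v n ∧ ¬ OnCurve FF (vector v P n) ∧
          Q = Projectivization.mk K (vector v P n) h}.encard ≤ B ∧
        ∀ n : Fin k → ℤ, Regular ρ G v n → vector v P n ≠ 0 → ¬ OnCurve FF (vector v P n) →
          ∀ T : ℕ, (2 * T + 1) ^ k ≤ B * {u : Fin k → ℤ | (∀ i, |u i| ≤ T) ∧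
            ∃ c : K, c ≠ 0 ∧ vector v P (n + u) = c • vector v P n}.ncard := by
  refine ⟨?_, ?_⟩
  · rintro K _ σ N FF hhom hyp z ⟨q, hq, -, a, b, i, j, hne⟩
    apply hne
    have h1 := Pool.Agent.TH409.SH.no_curveC' ((MvPolynomial.map σ) '' FF)
      (by
        rintro _ ⟨F, hF, rfl⟩
        obtain ⟨m, hm⟩ := hhom F hF
        exact ⟨m, hm.map _⟩) hyp (fun i => (q i).map σ)
      (by
        rintro _ ⟨F, hF, rfl⟩
        have h2 := congrArg (Polynomial.map σ) (hq F hF)
        rw [Polynomial.map_zero] at h2
        rw [← h2, MvPolynomial.aeval_def, MvPolynomial.aeval_def, MvPolynomial.eval₂_map]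
        change _ = (Polynomial.mapRingHom σ) _
        rw [MvPolynomial.hom_eval₂]
        congr 1
        ext x
        simp) i j (σ a) (σ b)
    simp only [Polynomial.eval_map, Polynomial.eval₂_at_apply] at h1
    rw [← map_mul, ← map_mul] at h1
    exact σ.injective h1
  · intro k s d e ρ hρ
    obtain ⟨B, hB⟩ := Pool.Agent.K6.H59.GP.main k s d e ρ hρ
    refine ⟨B, fun K _ _ N FF hFF G hG v hv P hP hx => ?_⟩
    obtain ⟨h1, h2⟩ := hB K N FF hFF G hG v hv P hP hx
    have hreg : ∀ n, Regular ρ G v n → ∀ l,
        ρ ≤ Int.fract (Pool.Agent.K6.H59.GP.arg G v l n) ∧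
          Int.fract (Pool.Agent.K6.H59.GP.arg G v l n) ≤ 1 - ρ := by
      intro n hn l
      have e1 : Pool.Agent.K6.H59.GP.arg G v l n = argument G v l n := rfl
      rw [e1]
      have h3 := hn l ⌊argument G v l n⌋
      have h4 := hn l (⌊argument G v l n⌋ + 1)
      have h5 := Int.floor_le (argument G v l n)
      have h6 := Int.lt_floor_add_one (argument G v l n)
      rw [abs_of_nonneg (by linarith)] at h3
      push_cast at h4
      rw [abs_of_nonpos (by linarith)] at h4
      constructor
      · rw [Int.fract]; exact h3
      · rw [Int.fract]; linarith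
    refine ⟨le_trans (Set.encard_le_encard ?_) h2, ?_⟩
    · rintro Q ⟨n, h, hn, hc, rfl⟩
      exact ⟨n, h, hreg n hn, hc, rfl⟩
    · intro n hn h0 hc T
      exact h1 n (hreg n hn) h0 hc T

end Pool.Agent.Results.MP_627a61_nt.GeneralisedPolynomials
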