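import Mathlib
import Pool.Agent.K6.H59.Lit.Shift

/-!
# Littlewood's conjecture for the pairs `(α, β + m α)`

Write `c(α, β)` for `liminf q ⟨qα⟩ ⟨qβ⟩`, `q → ∞`.  Littlewood's conjecture says that `c(α, β) = 0`
for all `α`, `β`.  The main result `result` has the following special cases (`windows` and
`dense_sets`), for all real `α`, `β`:

* `c(α, β) * min_{|m| ≤ X} c(α, β + m α) ≤ 1 / (2 X)` for all `X ≥ 1`; in particular there is `m`
  with `|m| ≤ X` and `c(α, β + m α) ≤ 1 / √(2 X)`;
* if `M` is a set of integers which contains elements near all numbers of large absolute value (with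
  a relative error tending to zero; for instance the set of all `± k ^ 2`, or of all `± p` with `p`
  prime), then the infimum of `c(α, β + m α)`, `m ∈ M`, is zero.
-/

set_option autoImplicit false

open Filter Topology

namespace Pool.Agent.Results.MP_0ea415_nt.ShiftsByMultiples

/-- infinitely often `q ⟨qα⟩ ⟨qβ⟩ ≤ ε` -/
def Good (ε α β : ℝ) : Prop :=
  ∃ᶠ q : ℕ in atTop, (q : ℝ) * |(q : ℝ) * α - (round ((q : ℝ) * α) : ℝ)|
    * |(q : ℝ) * β - (round ((q : ℝ) * β) : ℝ)| ≤ ε

open Pool.Agent.K6.H59.Lit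

lemma windows (α β : ℝ) (X : ℕ) (hX : 1 ≤ X) (c : ℝ) (hc : 0 < c) :
    Good c α β ∨ ∃ m : ℤ, |m| ≤ (X : ℤ) ∧ Good (1 / (2 * c * X)) α (β + m * α) := by
  have hX0 : (0 : ℝ) < X := by exact_mod_cast hX
  have := shifts (α := α) (β := β) (c := c) (A := c * X) (δ := 1 / (2 * c * X)) hc (by positivity)
    ((Finset.Icc (-(X : ℤ)) X).image fun m => ((1 : ℤ), m)) (by
      intro t _ ht
      rw [mul_div_assoc, mul_comm, div_mul_cancel₀ _ hc.ne'] at ht
      have ht' := abs_lt.1 ht
      refine ⟨(1, round t), ?_, ?_⟩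
      · rw [Finset.mem_image]
        refine ⟨round t, ?_, rfl⟩
        rw [Finset.mem_Icc]
        constructor
        · rw [round_eq, Int.le_floor]
          push_cast
          linarith
        · rw [round_eq, ← Int.lt_add_one_iff, Int.floor_lt]
          push_cast
          linarith
      · rw [Int.cast_one, one_mul]
        refine (abs_sub_round t).trans ?_
        have h1 : 1 / (2 * c * X) * (c * X) = 1 / 2 := by field_simp
        rw [← h1]
        exact mul_le_mul_of_nonneg_left (le_max_left _ _) (by positivity))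
  rcases this with h | ⟨x, hx, h⟩
  · exact Or.inl (h.mono fun q hq => hq.le)
  · right
    obtain ⟨m, hm, rfl⟩ := Finset.mem_image.1 hx
    rw [Finset.mem_Icc] at hm
    refine ⟨m, abs_le.2 hm, ?_⟩
    simp only [Int.cast_one, one_mul] at h
    exact h

lemma dense_sets (α β : ℝ) (M : Set ℤ)
    (hM : ∀ η : ℝ, 0 < η → ∃ X : ℝ, ∀ x : ℝ, X ≤ |x| → ∃ m ∈ M, |(m : ℝ) - x| ≤ η * |x|)
    (ε : ℝ) (hε : 0 < ε) : ∃ m ∈ M, Good ε α (β + m * α) := by
  classical
  -- a first element of `M`
  obtain ⟨m₀, hm₀⟩ : ∃ m₀, m₀ ∈ M := by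
    obtain ⟨X, hX⟩ := hM 1 one_pos
    obtain ⟨m, hm, -⟩ := hX (max X 0) (by
      rw [abs_of_nonneg (le_max_right _ _)]
      exact le_max_left _ _)
    exact ⟨m, hm⟩
  by_cases hgood : Good ε α (β + m₀ * α)
  · exact ⟨m₀, hm₀, hgood⟩
  obtain ⟨X, hX⟩ := hM ε hε
  have habs : (0 : ℝ) ≤ |(m₀ : ℝ)| := abs_nonneg _
  set A : ℝ := (|X| + |(m₀ : ℝ)| + 1) / ε with hA
  have hA0 : 0 < A := by positivity
  set B : ℕ := ⌈(2 + 4 * ε) * (A / ε) + |(m₀ : ℝ)|⌉₊ with hB
  have hB1 : (2 + 4 * ε) * (A / ε) + |(m₀ : ℝ)| ≤ B := Nat.le_ceil _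
  have key := shifts (α := α) (β := β + m₀ * α) (c := ε) (A := A) (δ := ε) hε hA0
    (((Finset.Icc (-(B : ℤ)) B).filter (fun m => m ∈ M)).image fun m => ((1 : ℤ), m - m₀)) (by
      intro t ht1 ht2
      have e1 : ε * A = |X| + |(m₀ : ℝ)| + 1 := by rw [hA]; field_simp
      rw [e1] at ht1
      obtain ⟨m, hm, hmt⟩ := hX (t + m₀) (by
        have h1 := abs_sub_abs_le_abs_sub t (-(m₀ : ℝ))
        rw [sub_neg_eq_add, abs_neg] at h1
        have := le_abs_self X
        linarith)
      have h2 : |t + m₀| ≤ 2 * |t| := by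
        have := abs_add_le t (m₀ : ℝ)
        have := abs_nonneg X
        linarith
      have h3 : |(m : ℝ) - (t + m₀)| ≤ ε * (2 * |t|) :=
        hmt.trans (mul_le_mul_of_nonneg_left h2 hε.le)
      refine ⟨(1, m - m₀), ?_, ?_⟩
      · rw [Finset.mem_image]
        refine ⟨m, ?_, rfl⟩
        rw [Finset.mem_filter, Finset.mem_Icc, ← abs_le]
        refine ⟨?_, hm⟩
        have h4 : |(m : ℝ)| ≤ B := by
          have h5 : |(m : ℝ)| ≤ |(m : ℝ) - (t + m₀)| + |t + m₀| := by
            have := abs_add_le ((m : ℝ) - (t + m₀)) (t + m₀)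
            rwa [sub_add_cancel] at this
          have h6 : (2 + 4 * ε) * |t| ≤ (2 + 4 * ε) * (A / ε) :=
            mul_le_mul_of_nonneg_left ht2.le (by positivity)
          have := mul_nonneg hε.le (abs_nonneg t)
          linarith
        exact_mod_cast h4
      · push_cast
        rw [one_mul]
        have e2 : |t - ((m : ℝ) - m₀)| = |(m : ℝ) - (t + m₀)| := by
          rw [← abs_neg]; congr 1; ring
        rw [e2]
        refine h3.trans (mul_le_mul_of_nonneg_left ?_ hε.le)
        have := le_max_right A (4 * |t|)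
        have := abs_nonneg t
        linarith)
  rcases key with h | ⟨x, hx, h⟩
  · exact absurd (h.mono fun q hq => hq.le) hgood
  · obtain ⟨m, hm, rfl⟩ := Finset.mem_image.1 hx
    rw [Finset.mem_filter] at hm
    refine ⟨m, hm.2, ?_⟩
    have e : ((1 : ℤ) : ℝ) * (β + m₀ * α) + ((m - m₀ : ℤ) : ℝ) * α = β + m * α := by
      push_cast
      ring
    simp only at h
    rw [e] at h
    exact h

/-- Main result.  The two lemmas above are special cases. -/
theorem result (α β c A δ : ℝ) (hc : 0 < c) (hA : 0 < A) (M : Finset (ℤ × ℤ))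
    -- for the relevant real numbers `t` there is `(l, m)` in `M` with `l t` near `m`
    (hM : ∀ t : ℝ, c * A < |t| → |t| < A / c →
      ∃ x ∈ M, |x.1 * t - x.2| ≤ δ * max A (4 * |t|)) :
    Good c α β ∨ ∃ x ∈ M, Good δ α (x.1 * β + x.2 * α) := by
  rcases shifts (α := α) (β := β) hc hA M hM with h | ⟨x, hx, h⟩
  · exact Or.inl (h.mono fun q hq => hq.le)
  · exact Or.inr ⟨x, hx, h⟩

end Pool.Agent.Results.MP_0ea415_nt.ShiftsByMultiples
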